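import Pool.Agent.V11147.RetB

namespace Pool.Agent.Results.MP_017791_co.CommutingPairs

open Pool.Agent.V11147.Ret

/-- Property (C) (every nonempty retract comes from a commuting pair of a closure operator and an
anticlosure operator):
1. every poset with (C) is a modular lattice;
2. a complete lattice has (C) iff it is modular;
3. a finite poset has (C) iff it is a modular lattice;
4. every chain has (C);
5. a poset has (C) iff it is a lattice in which every retract is the image of a retraction `r` with
   `r (x ∨ r x) = r x = r (x ∧ r x)`;
6. if only equality of the images is asked for (not `φ ∘ ω = ω ∘ φ`), a poset with the property is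
   a lattice;
7. and a finite poset has that property iff it is a lattice. -/
theorem result.{u} :
    (∀ (P : Type u) [PartialOrder P], PropC P → IsLat P ∧ ModLaw P) ∧
    (∀ (P : Type u) [PartialOrder P], IsCompl P → (PropC P ↔ ModLaw P)) ∧
    (∀ (P : Type u) [PartialOrder P] [Finite P], PropC P ↔ IsLat P ∧ ModLaw P) ∧
    (∀ (P : Type u) [LinearOrder P], PropC P) ∧
    (∀ (P : Type u) [PartialOrder P], PropC P ↔ IsLat P ∧ ∀ r : P → P, IsRetraction r →
      ∃ r' : P → P, IsGood r' ∧ Set.range r' = Set.range r) ∧
    (∀ (P : Type u) [PartialOrder P], PropCIm P → IsLat P) ∧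
    (∀ (P : Type u) [PartialOrder P] [Finite P], PropCIm P ↔ IsLat P) :=
  ⟨fun _ _ h => modLaw_of_propC h, fun _ _ h => isCompl_iff h, fun _ _ _ => finite_iff,
    fun _ _ => propC_linear, fun _ _ => propC_iff_good', fun _ _ h => isLat_of_im h,
    fun _ _ _ => finite_im_iff⟩

end Pool.Agent.Results.MP_017791_co.CommutingPairs
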